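import Pool.Agent.W845.CP.Base2

set_option autoImplicit false
open scoped BigOperators Topology
open Filter

/-!
Project CP: choice of the parameters.
-/

namespace Pool.Agent.W148.CP

open Pool.Agent.W845.CP

/-- the depth of the trees -/
def KK (M : ℕ) : ℕ := 40 * (Nat.log 2 M + 1)

theorem KK_pow_aux {M : ℕ} (hM : 1 ≤ M) (c : ℕ) {b : ℝ} (hb0 : 0 ≤ b) (hb : b ≤ 2 ^ c) :
    b ^ KK M ≤ (2 * (M : ℝ)) ^ (c * 40) := by
  have h1 : (2 : ℝ) ^ Nat.log 2 M ≤ M := by exact_mod_cast Nat.pow_log_le_self 2 (by omega)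
  have e : c * KK M = (Nat.log 2 M + 1) * (c * 40) := by
    unfold KK
    generalize Nat.log 2 M = L
    ring
  calc b ^ KK M ≤ (2 ^ c) ^ KK M := pow_le_pow_left₀ hb0 hb _
    _ = 2 ^ (c * KK M) := (pow_mul _ _ _).symm
    _ = 2 ^ ((Nat.log 2 M + 1) * (c * 40)) := congrArg (fun x : ℕ => (2 : ℝ) ^ x) e
    _ = (2 ^ (Nat.log 2 M + 1)) ^ (c * 40) := pow_mul _ _ _
    _ ≤ (2 * (M : ℝ)) ^ (c * 40) := by
        refine pow_le_pow_left₀ (by positivity) ?_ _
        calc (2 : ℝ) ^ (Nat.log 2 M + 1) = 2 * 2 ^ Nat.log 2 M := pow_succ' _ _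
          _ ≤ 2 * (M : ℝ) := by linarith

/-- the exponent `280` -/
def EX : ℕ := 7 * 40

theorem KK_pow {M : ℕ} (hM : 1 ≤ M) {b : ℝ} (hb0 : 0 ≤ b) (hb : b ≤ 128) :
    b ^ KK M ≤ (2 * (M : ℝ)) ^ EX :=
  KK_pow_aux hM 7 hb0 (hb.trans (by norm_num))

theorem KK_small {M : ℕ} (hM : 1 ≤ M) : (242 / 361 : ℝ) ^ KK M ≤ 1 / (M : ℝ) ^ 20 := by
  have h1 : (M : ℝ) ≤ 2 ^ (Nat.log 2 M + 1) := by
    exact_mod_cast (Nat.lt_pow_succ_log_self (by norm_num) M).le
  have hM0 : (0 : ℝ) < M := by exact_mod_cast hM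
  calc (242 / 361 : ℝ) ^ KK M = ((242 / 361) ^ 2) ^ (20 * (Nat.log 2 M + 1)) := by
        rw [← pow_mul]; congr 1; unfold KK; ring
    _ ≤ (1 / 2) ^ (20 * (Nat.log 2 M + 1)) := pow_le_pow_left₀ (by norm_num) (by norm_num) _
    _ = 1 / (2 ^ (Nat.log 2 M + 1)) ^ 20 := by
        rw [one_div_pow, ← pow_mul, mul_comm 20]
    _ ≤ 1 / (M : ℝ) ^ 20 := by
        apply one_div_le_one_div_of_le (by positivity)
        exact pow_le_pow_left₀ hM0.le h1 _

theorem ev (a : ℕ) (C q : ℝ) (hC : 0 ≤ C) (hq0 : 0 ≤ q) (hq : q < 1) :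
    ∃ M0 : ℕ, ∀ M : ℕ, M0 ≤ M → C * (M : ℝ) ^ a * q ^ (M / 4) ≤ 1 := by
  have h1 := tendsto_pow_const_mul_const_pow_of_abs_lt_one a (r := q) (by rwa [abs_of_nonneg hq0])
  have h2 := h1.const_mul (C * 7 ^ a)
  rw [mul_zero] at h2
  obtain ⟨N, hN⟩ := eventually_atTop.1 (h2.eventually (gt_mem_nhds (show (0 : ℝ) < 1 by norm_num)))
  refine ⟨4 * N + 4, fun M hM => ?_⟩
  have h3 : N ≤ M / 4 := by omega
  have h4 := hN (M / 4) h3
  have h5 : M ≤ 7 * (M / 4) := by omega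
  have h6 : (M : ℝ) ≤ 7 * ((M / 4 : ℕ) : ℝ) := by exact_mod_cast h5
  have h7 : (M : ℝ) ^ a ≤ 7 ^ a * ((M / 4 : ℕ) : ℝ) ^ a := by
    rw [← mul_pow]
    exact pow_le_pow_left₀ (Nat.cast_nonneg _) h6 _
  calc C * (M : ℝ) ^ a * q ^ (M / 4)
      ≤ C * (7 ^ a * ((M / 4 : ℕ) : ℝ) ^ a) * q ^ (M / 4) := by gcongr
    _ = C * 7 ^ a * (((M / 4 : ℕ) : ℝ) ^ a * q ^ (M / 4)) := by ring
    _ ≤ 1 := h4.le

theorem TT_succ (h : St_SEQ) {lam : ℝ} (h0 : 0 ≤ lam) (h1 : lam ≤ 1 / 20) {M : ℕ}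
    (hM : 200 ≤ M) : TT lam (M + 1) ≤ M * TT lam M := by
  obtain ⟨-, -, -, -, a1, a2, a3, -⟩ := h.1 lam h0 M (by omega)
  have hM' : (200 : ℝ) ≤ M := by exact_mod_cast hM
  have h2 : lam * M * TT lam M ≤ 1 / 20 * M * TT lam M := by gcongr
  nlinarith

theorem Ts_succ (h : St_SEQ) {lam : ℝ} (h0 : 0 ≤ lam) (h1 : lam ≤ 1 / 20) {M : ℕ}
    (hM : 200 ≤ M) : Ts lam (M + 1) ≤ 8 * (M : ℝ) ^ 3 * TT lam M := by
  obtain ⟨-, -, -, -, b1, b2, b3, b4, b5, -⟩ := h.1 lam h0 (M + 1) (by omega)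
  have hM' : (200 : ℝ) ≤ M := by exact_mod_cast hM
  have h2 := TT_succ h h0 h1 hM
  obtain ⟨-, -, -, -, a1, -⟩ := h.1 lam h0 M (by omega)
  refine b5.trans ?_
  push_cast
  calc 2 * ((M : ℝ) + 1) ^ 2 * TT lam (M + 1) ≤ 2 * (4 * (M : ℝ) ^ 2) * (M * TT lam M) := by
        apply mul_le_mul _ h2 (by linarith) (by positivity)
        nlinarith
    _ = 8 * (M : ℝ) ^ 3 * TT lam M := by ring

theorem Ts_le (h : St_SEQ) {lam : ℝ} (h0 : 0 ≤ lam) {M : ℕ}
    (hM : 200 ≤ M) : Ts lam M ≤ 8 * (M : ℝ) ^ 3 * TT lam M := by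
  obtain ⟨-, -, -, -, b1, b2, b3, b4, b5, -⟩ := h.1 lam h0 M (by omega)
  have hM' : (200 : ℝ) ≤ M := by exact_mod_cast hM
  refine b5.trans ?_
  have : 2 * (M : ℝ) ^ 2 ≤ 8 * (M : ℝ) ^ 3 := by nlinarith [sq_nonneg (M : ℝ)]
  exact mul_le_mul_of_nonneg_right this (by linarith)

/-- exponential growth of the hub lifetime -/
theorem TT_exp (h : St_SEQ) {M : ℕ} (hM : 200 ≤ M) : 1 ≤ 2 * (1 / 2 : ℝ) ^ (M / 4) * TT (1 / 20) M := by
  have hM' : (200 : ℝ) ≤ M := by exact_mod_cast hM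
  have h1 := h.2 (1 / 40) (1 / 20) (by norm_num) (by norm_num) M (by omega) (by linarith)
  obtain ⟨-, -, -, -, a1, -⟩ := h.1 (1 / 40) (by norm_num) M (by omega)
  have h2 : (1 / 40 : ℝ) / (1 / 20) = 1 / 2 := by norm_num
  rw [h2] at h1
  linarith

theorem choose_l (hP : St_PATH) {T B : ℝ} (hB : 0 < B) (hTB : B < T) :
    ∃ l : ℕ, 1 ≤ l ∧ B / 21 ≤ T * oo l (1 / 20) ∧ T * oo l (1 / 20) ≤ B := by
  have hT : 0 < T := hB.trans hTB
  have hex : ∃ l : ℕ, T * oo (l + 1) (1 / 20) ≤ B := by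
    obtain ⟨l, hl⟩ := exists_pow_lt_of_lt_one (show (0 : ℝ) < B / (2 * T) by positivity)
      (show (1 / 15 : ℝ) < 1 by norm_num)
    obtain ⟨-, h2, -⟩ := hP (1 / 20) (by norm_num) (by norm_num) (l + 1) (by omega)
    have h3 := h2 l (by omega)
    refine ⟨l, ?_⟩
    have h4 : oo (l + 1) (1 / 20) = pO (l + 1) (1 / 20) {l} := by
      unfold oo
      rw [Nat.add_sub_cancel]
    rw [h4]
    rw [lt_div_iff₀ (by positivity)] at hl
    nlinarith
  classical
  obtain ⟨l, hl, hmin⟩ : ∃ l : ℕ, T * oo (l + 1) (1 / 20) ≤ B ∧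
      ∀ l' < l, ¬ T * oo (l' + 1) (1 / 20) ≤ B :=
    ⟨Nat.find hex, Nat.find_spec hex, fun l' hl' => Nat.find_min hex hl'⟩
  cases l with
  | zero =>
    obtain ⟨-, -, -, -, h5, -⟩ := hP (1 / 20) (by norm_num) (by norm_num) 1 le_rfl
    rw [zero_add, h5] at hl
    linarith
  | succ l =>
    have h1 := hmin l (by omega)
    obtain ⟨-, -, -, -, -, h6, -⟩ := hP (1 / 20) (by norm_num) (by norm_num) (l + 1) (by omega)
    refine ⟨l + 1 + 1, by omega, ?_, hl⟩
    have h7 : (1 / 20 : ℝ) / (1 + 1 / 20) = 1 / 21 := by norm_num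
    rw [h7] at h6
    have h8 : B < T * oo (l + 1) (1 / 20) := not_le.1 h1
    nlinarith

/-- the lifetime beats all the polynomials needed -/
theorem TT_big (h : St_SEQ) : ∃ M1 : ℕ, 200 ≤ M1 ∧ ∀ M : ℕ, M1 ≤ M →
    8 * (M : ℝ) ^ 15 * 121 ^ KK M ≤ TT (1 / 20) M := by
  obtain ⟨M0, hM0⟩ := ev (15 + EX) (16 * 2 ^ EX) (1 / 2) (by positivity) (by norm_num)
    (by norm_num)
  refine ⟨max M0 200, le_max_right _ _, fun M hM => ?_⟩
  have h1 := hM0 M (le_trans (le_max_left _ _) hM)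
  have hM200 : 200 ≤ M := le_trans (le_max_right _ _) hM
  have h2 := TT_exp h hM200
  have h3 := KK_pow (M := M) (by omega) (b := 121) (by norm_num) (by norm_num)
  obtain ⟨-, -, -, -, a1, -⟩ := h.1 (1 / 20) (by norm_num) M (by omega)
  have hM' : (0 : ℝ) ≤ M := Nat.cast_nonneg _
  have h4 : 8 * (M : ℝ) ^ 15 * 121 ^ KK M ≤ 8 * (2 ^ EX * (M : ℝ) ^ (15 + EX)) := by
    calc 8 * (M : ℝ) ^ 15 * 121 ^ KK M ≤ 8 * (M : ℝ) ^ 15 * (2 * (M : ℝ)) ^ EX := by gcongr
      _ = 8 * (2 ^ EX * (M : ℝ) ^ (15 + EX)) := by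
        rw [mul_pow, pow_add]
        generalize (2 : ℝ) ^ EX = u
        generalize (M : ℝ) ^ EX = v
        ring
  refine h4.trans ?_
  have h5 : 0 ≤ 8 * (2 ^ EX * (M : ℝ) ^ (15 + EX)) := by positivity
  generalize hu : (2 : ℝ) ^ EX * (M : ℝ) ^ (15 + EX) = u at h5
  have h6 : 16 * 2 ^ EX * (M : ℝ) ^ (15 + EX) * (1 / 2) ^ (M / 4) = 16 * u * (1 / 2) ^ (M / 4) := by
    rw [← hu]; ring
  rw [h6] at h1
  generalize (1 / 2 : ℝ) ^ (M / 4) = v at h1 h2
  generalize TT (1 / 20) M = T at a1 h2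
  calc 8 * u = 8 * u * 1 := (mul_one _).symm
    _ ≤ 8 * u * (2 * v * T) := mul_le_mul_of_nonneg_left h2 h5
    _ = (16 * u * v) * T := by ring
    _ ≤ 1 * T := mul_le_mul_of_nonneg_right h1 (by linarith)
    _ = T := one_mul T

theorem exists_l (hP : St_PATH) {M : ℕ} (hM : 200 ≤ M)
    (hbig : 8 * (M : ℝ) ^ 15 * 121 ^ KK M ≤ TT (1 / 20) M) :
    ∃ l : ℕ, 1 ≤ l ∧ (M : ℝ) ^ 5 * 11 ^ KK M ≤ TT (1 / 20) M * oo l (1 / 20) ∧
      TT (1 / 20) M * oo l (1 / 20) ≤ (M : ℝ) ^ 6 * 11 ^ KK M := by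
  have hM' : (200 : ℝ) ≤ M := by exact_mod_cast hM
  have h1 : (11 : ℝ) ^ KK M ≤ 121 ^ KK M := pow_le_pow_left₀ (by norm_num) (by norm_num) _
  have h2 : (M : ℝ) ^ 6 ≤ (M : ℝ) ^ 15 := pow_le_pow_right₀ (by linarith) (by norm_num)
  have h3 : 0 < (M : ℝ) ^ 6 * 11 ^ KK M := by positivity
  have h4 : (M : ℝ) ^ 6 * 11 ^ KK M ≤ (M : ℝ) ^ 15 * 121 ^ KK M :=
    mul_le_mul h2 h1 (by positivity) (by positivity)
  have h5 : (M : ℝ) ^ 6 * 11 ^ KK M < TT (1 / 20) M := by linarith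
  obtain ⟨l, hl, hl1, hl2⟩ := choose_l hP h3 h5
  refine ⟨l, hl, le_trans ?_ hl1, hl2⟩
  have h6 : (M : ℝ) ^ 6 * 11 ^ KK M = M * ((M : ℝ) ^ 5 * 11 ^ KK M) := by ring
  have h7 : 0 < (M : ℝ) ^ 5 * 11 ^ KK M := by positivity
  rw [h6]
  nlinarith

/-- the second error term -/
theorem second (h : St_SEQ) {lam : ℝ} (h0 : 1 / 20 ≤ lam) {M : ℕ} (hM : 200 ≤ M) :
    (M : ℝ) * del lam M 5 / TT lam M ≤ 2560000 / (M : ℝ) ^ 3 := by
  have hM' : (200 : ℝ) ≤ M := by exact_mod_cast hM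
  obtain ⟨-, -, hd, -, a1, -, -, -, -, -, a8⟩ := h.1 lam (by linarith) M (by omega)
  have h1 := a8 (by omega)
  have h2 := hd 5 (by norm_num) (by omega)
  have h3 : ((M : ℝ) / 40) ^ 4 ≤ (lam * M / 2) ^ 4 := by
    apply pow_le_pow_left₀ (by positivity)
    nlinarith
  have h4 : ((M : ℝ) / 40) ^ 4 * del lam M 5 ≤ TT lam M :=
    (mul_le_mul_of_nonneg_right h3 h2.le).trans h1
  rw [div_le_div_iff₀ (by linarith) (by positivity)]
  calc (M : ℝ) * del lam M 5 * (M : ℝ) ^ 3 = 2560000 * (((M : ℝ) / 40) ^ 4 * del lam M 5) := by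
        ring
    _ ≤ 2560000 * TT lam M := by linarith

theorem tune : St_PATH → St_SEQ → St_TUNE := by
  intro hP hS
  obtain ⟨M1, hM1, hbig⟩ := TT_big hS
  set n0 : ℕ := max M1 (10 ^ 8) with hn0
  have hn01 : M1 ≤ n0 := le_max_left _ _
  have hn02 : 10 ^ 8 ≤ n0 := le_max_right _ _
  have hM200 : ∀ n, 200 ≤ n + n0 := fun n => by omega
  have hMb : ∀ n, (10 ^ 8 : ℝ) ≤ ((n + n0 : ℕ) : ℝ) := fun n => by
    have : 10 ^ 8 ≤ n + n0 := by omega
    exact_mod_cast this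
  have hMn : ∀ n : ℕ, (n : ℝ) + 2 ≤ ((n + n0 : ℕ) : ℝ) := fun n => by
    have : n + 2 ≤ n + n0 := by omega
    exact_mod_cast this
  choose l hl1 hl2 hl3 using fun n : ℕ => exists_l hP (hM200 n) (hbig (n + n0) (by omega))
  have hoo : ∀ n, 0 < oo (l n) (1 / 20) := fun n =>
    (hP (1 / 20) (by norm_num) (by norm_num) (l n) (hl1 n)).2.2.2.1
  have hTT : ∀ n, 1 ≤ TT (1 / 20) (n + n0) := fun n =>
    (hS.1 (1 / 20) (by norm_num) (n + n0) (by have := hM200 n; omega)).2.2.2.2.1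
  have hmm : ∀ n, (n + 1) + n0 = (n + n0) + 1 := fun n => by omega
  refine ⟨fun n => n + n0, fun n => KK (n + n0), l, ?_, ?_, ?_, ?_, ?_, ?_⟩
  · intro n
    refine ⟨hM200 n, (by omega : n + n0 ≤ n + 1 + n0),
      (by have := hM200 n; omega : n + 1 + n0 ≤ 2 * (n + n0)), ?_, hl1 n⟩
    show 1 ≤ KK (n + n0)
    unfold KK
    omega
  · -- t1
    intro n
    have h1 := Ts_le hS (lam := 1 / 20) (by norm_num) (hM200 n)
    obtain ⟨-, -, -, -, -, -, -, -, b5, -⟩ := hS.1 (1 / 20) (by norm_num) (n + n0)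
      (by have := hM200 n; omega)
    have h2 := Ts_succ hS (lam := 1 / 20) (by norm_num) le_rfl (hM200 n)
    have h3 := KK_small (M := n + n0) (by have := hM200 n; omega)
    have h4 := hl3 n
    have h5 := hMb n
    have h6 := hoo n
    have h7 := hTT n
    show Ts (1 / 20) (n + n0) * Ts (1 / 20) (n + 1 + n0) * oo (l n) (1 / 20) ^ 2 *
      (2 * (1 / 19 : ℝ) ^ 2) ^ KK (n + n0) ≤ 1
    rw [hmm n]
    have h8 : (2 * (1 / 19 : ℝ) ^ 2) ^ KK (n + n0) * (11 ^ KK (n + n0)) ^ 2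
        = (242 / 361) ^ KK (n + n0) := by
      rw [← pow_mul, mul_comm (KK (n + n0)) 2, pow_mul, ← mul_pow]
      norm_num
    generalize hMM : ((n + n0 : ℕ) : ℝ) = M at *
    generalize TT (1 / 20) (n + n0) = T at *
    generalize oo (l n) (1 / 20) = o at *
    generalize (2 * (1 / 19 : ℝ) ^ 2) ^ KK (n + n0) = u at *
    have hv : (0 : ℝ) < 11 ^ KK (n + n0) := by positivity
    generalize (11 : ℝ) ^ KK (n + n0) = v at *
    generalize hw : (242 / 361 : ℝ) ^ KK (n + n0) = w at *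
    have hw0 : 0 < w := by rw [← hw]; positivity
    have hu : 0 < u := by
      by_contra hu
      have : u * v ^ 2 ≤ 0 := mul_nonpos_of_nonpos_of_nonneg (not_lt.1 hu) (by positivity)
      linarith
    have hM0 : 0 < M := by linarith
    have g1 : Ts (1 / 20) (n + n0) * Ts (1 / 20) (n + n0 + 1)
        ≤ (2 * M ^ 2 * T) * (8 * M ^ 3 * T) := by
      have hT1 : 0 < Ts (1 / 20) (n + n0 + 1) := by
        obtain ⟨-, -, -, -, -, -, -, c4, -⟩ := hS.1 (1 / 20) (by norm_num) (n + n0 + 1) (by omega)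
        unfold Ts
        have : (0 : ℝ) < ((n + n0 + 1 : ℕ) : ℝ) := by positivity
        positivity
      exact mul_le_mul b5 h2 hT1.le (by positivity)
    have g2 : Ts (1 / 20) (n + n0) * Ts (1 / 20) (n + n0 + 1) * o ^ 2 * u
        ≤ (2 * M ^ 2 * T) * (8 * M ^ 3 * T) * o ^ 2 * u :=
      mul_le_mul_of_nonneg_right (mul_le_mul_of_nonneg_right g1 (by positivity)) hu.le
    refine g2.trans ?_
    have g3 : (T * o) ^ 2 ≤ (M ^ 6 * v) ^ 2 := pow_le_pow_left₀ (by positivity) h4 2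
    have g4 : (2 * M ^ 2 * T) * (8 * M ^ 3 * T) * o ^ 2 * u = 16 * M ^ 5 * u * (T * o) ^ 2 := by
      ring
    rw [g4]
    have g5 : 16 * M ^ 5 * u * (T * o) ^ 2 ≤ 16 * M ^ 5 * u * (M ^ 6 * v) ^ 2 :=
      mul_le_mul_of_nonneg_left g3 (by positivity)
    refine g5.trans ?_
    have g6 : 16 * M ^ 5 * u * (M ^ 6 * v) ^ 2 = 16 * M ^ 17 * w := by
      rw [← h8]; ring
    rw [g6]
    have g7 : 16 * M ^ 17 * w ≤ 16 * M ^ 17 * (1 / M ^ 20) :=
      mul_le_mul_of_nonneg_left h3 (by positivity)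
    refine g7.trans ?_
    have g8 : 16 * M ^ 17 * (1 / M ^ 20) = 16 / M ^ 3 := by
      field_simp
    rw [g8, div_le_one (by positivity)]
    calc (16 : ℝ) ≤ (10 ^ 8) ^ 3 := by norm_num
      _ ≤ M ^ 3 := pow_le_pow_left₀ (by norm_num) h5 3
  · -- t2
    intro n
    have h2 := Ts_succ hS (lam := 1 / 20) (by norm_num) le_rfl (hM200 n)
    have h4 := hl3 n
    have h5 := hMb n
    have h6 := hoo n
    have h7 := hTT n
    have h9 := hbig (n + n0) (by omega)
    show Ts (1 / 20) (n + 1 + n0) * oo (l n) (1 / 20) ^ 2 ≤ 1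
    rw [hmm n]
    have h8 : (11 ^ KK (n + n0)) ^ 2 = (121 : ℝ) ^ KK (n + n0) := by
      rw [← pow_mul, mul_comm (KK (n + n0)) 2, pow_mul]
      norm_num
    generalize ((n + n0 : ℕ) : ℝ) = M at *
    generalize TT (1 / 20) (n + n0) = T at *
    generalize oo (l n) (1 / 20) = o at *
    have hv : (0 : ℝ) < 11 ^ KK (n + n0) := by positivity
    generalize (11 : ℝ) ^ KK (n + n0) = v at *
    rw [← h8] at h9
    have hM0 : 0 < M := by linarith
    have hT0 : 0 < T := by linarith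
    have g1 : Ts (1 / 20) (n + n0 + 1) * o ^ 2 ≤ 8 * M ^ 3 * T * o ^ 2 :=
      mul_le_mul_of_nonneg_right h2 (by positivity)
    refine g1.trans ?_
    have g3 : (T * o) ^ 2 ≤ (M ^ 6 * v) ^ 2 := pow_le_pow_left₀ (by positivity) h4 2
    have g4 : 8 * M ^ 3 * T * o ^ 2 = 8 * M ^ 3 * (T * o) ^ 2 / T := by
      field_simp
    rw [g4, div_le_one hT0]
    calc 8 * M ^ 3 * (T * o) ^ 2 ≤ 8 * M ^ 3 * (M ^ 6 * v) ^ 2 :=
          mul_le_mul_of_nonneg_left g3 (by positivity)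
      _ = 8 * M ^ 15 * v ^ 2 := by ring
      _ ≤ T := h9
  · -- t3
    intro lam hlam0 hlam
    obtain ⟨N, hN⟩ := ev (9 + EX) (16 * 2 ^ EX) (max (1 / 2) (20 * lam)) (by positivity)
      (le_trans (by norm_num) (le_max_left _ _)) (max_lt (by norm_num) (by linarith))
    refine ⟨N, fun n hn => ?_⟩
    have h1 := hN (n + n0) (by omega)
    have h2 := Ts_succ hS (lam := lam) hlam0.le hlam.le (hM200 n)
    have h3 := Ts_le hS (lam := lam) hlam0.le (hM200 n)
    have h4 := hl3 n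
    have h5 := hMb n
    have h6 := hoo n
    have h7 := hTT n
    have h8 := KK_pow (M := n + n0) (by have := hM200 n; omega) (b := 11) (by norm_num)
      (by norm_num)
    have h9 := hS.2 lam (1 / 20) hlam0 hlam.le (n + n0) (by have := hM200 n; omega)
      (by linarith)
    obtain ⟨-, -, -, p4, -, -, p7, -⟩ := hP lam hlam0 (by linarith) (l n) (hl1 n)
    have p8 := p7 (1 / 20) hlam.le (by norm_num)
    have hq1 : (1 / 2 : ℝ) ^ ((n + n0) / 4) ≤ (max (1 / 2) (20 * lam)) ^ ((n + n0) / 4) :=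
      pow_le_pow_left₀ (by norm_num) (le_max_left _ _) _
    have hq2 : (lam / (1 / 20) : ℝ) ^ ((n + n0) / 4) ≤ (max (1 / 2) (20 * lam)) ^ ((n + n0) / 4) := by
      apply pow_le_pow_left₀ (by positivity)
      refine le_trans (le_of_eq ?_) (le_max_right _ _)
      field_simp
    have hq0 : 0 ≤ (max (1 / 2) (20 * lam)) ^ ((n + n0) / 4) := by positivity
    have key : 8 * ((n + n0 : ℕ) : ℝ) ^ 3 * TT lam (n + n0) * oo (l n) lam ≤ 1 := by
      have g1 : TT lam (n + n0) ≤ 2 * (max (1 / 2) (20 * lam)) ^ ((n + n0) / 4) *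
          TT (1 / 20) (n + n0) := by
        refine h9.trans ?_
        apply mul_le_mul_of_nonneg_right _ (by linarith)
        linarith
      generalize ((n + n0 : ℕ) : ℝ) = M at *
      generalize TT (1 / 20) (n + n0) = T at *
      generalize oo (l n) (1 / 20) = o at *
      generalize (max (1 / 2) (20 * lam)) ^ ((n + n0) / 4) = Q at *
      have hv : (0 : ℝ) < 11 ^ KK (n + n0) := by positivity
      generalize (11 : ℝ) ^ KK (n + n0) = v at *
      have hM0 : 0 < M := by linarith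
      have g2 : 8 * M ^ 3 * TT lam (n + n0) * oo (l n) lam ≤ 8 * M ^ 3 * (2 * Q * T) * o := by
        apply mul_le_mul _ p8 p4.le (by positivity)
        exact mul_le_mul_of_nonneg_left g1 (by positivity)
      refine g2.trans ?_
      calc 8 * M ^ 3 * (2 * Q * T) * o = 16 * M ^ 3 * Q * (T * o) := by ring
        _ ≤ 16 * M ^ 3 * Q * (M ^ 6 * v) := mul_le_mul_of_nonneg_left h4 (by positivity)
        _ ≤ 16 * M ^ 3 * Q * (M ^ 6 * (2 * M) ^ EX) := by gcongr
        _ = 16 * 2 ^ EX * M ^ (9 + EX) * Q := by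
            rw [mul_pow, pow_add]
            generalize (2 : ℝ) ^ EX = u'
            generalize M ^ EX = v'
            ring
        _ ≤ 1 := h1
    constructor
    · show Ts lam (n + 1 + n0) * oo (l n) lam ≤ 1
      rw [hmm n]
      exact (mul_le_mul_of_nonneg_right h2 p4.le).trans key
    · exact (mul_le_mul_of_nonneg_right h3 p4.le).trans key
  · -- t4
    intro lam hlam0 hlam n
    have h2 := hl2 n
    have h5 := hMb n
    have h5' := hMn n
    have h6 := hoo n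
    have h7 := hTT n
    obtain ⟨-, -, -, -, -, -, p7, -⟩ := hP (1 / 20) (by norm_num) (by norm_num) (l n) (hl1 n)
    have p8 := p7 lam hlam0 hlam
    obtain ⟨-, -, -, -, -, -, -, -, -, a9, -⟩ := hS.1 (1 / 20) (by norm_num) (n + n0)
      (by have := hM200 n; omega)
    have a10 := (a9 lam hlam0).1
    have hsec := second hS hlam0 (hM200 n)
    show 2 * (20 * ((n + n0 : ℕ) : ℝ) * (10584 * 11 ^ KK (n + n0)) /
      (lam ^ 2 * oo (l n) lam * TT lam (n + n0)) +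
        ((n + n0 : ℕ) : ℝ) * del lam (n + n0) 5 / TT lam (n + n0)) ≤ 1 / ((n : ℝ) + 2) ^ 2
    have hv : (0 : ℝ) < 11 ^ KK (n + n0) := by positivity
    generalize ((n + n0 : ℕ) : ℝ) = M at *
    generalize TT (1 / 20) (n + n0) = T at *
    generalize oo (l n) (1 / 20) = o at *
    generalize (11 : ℝ) ^ KK (n + n0) = v at *
    generalize M * del lam (n + n0) 5 / TT lam (n + n0) = W at *
    generalize TT lam (n + n0) = T' at *
    generalize oo (l n) lam = o' at *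
    have hM0 : 0 < M := by linarith
    have hT' : 0 < T' := by linarith
    have ho' : 0 < o' := by linarith
    have g1 : M ^ 5 * v ≤ o' * T' := by
      refine h2.trans ?_
      rw [mul_comm]
      exact mul_le_mul p8 a10 (by linarith) ho'.le
    have g2 : (1 / 400 : ℝ) ≤ lam ^ 2 := by nlinarith
    have g3 : 20 * M * (10584 * v) / (lam ^ 2 * o' * T') ≤ 84672000 / M ^ 4 := by
      rw [div_le_div_iff₀ (by positivity) (by positivity)]
      have g4 : 1 / 400 * (M ^ 5 * v) ≤ lam ^ 2 * (o' * T') :=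
        mul_le_mul g2 g1 (by positivity) (by positivity)
      calc 20 * M * (10584 * v) * M ^ 4 = 84672000 * (1 / 400 * (M ^ 5 * v)) := by ring
        _ ≤ 84672000 * (lam ^ 2 * (o' * T')) := by linarith
        _ = 84672000 * (lam ^ 2 * o' * T') := by ring
    have g5 : 84672000 / M ^ 4 ≤ 1 / (4 * M ^ 2) := by
      rw [div_le_div_iff₀ (by positivity) (by positivity)]
      have : (10 ^ 8 : ℝ) ^ 2 ≤ M ^ 2 := pow_le_pow_left₀ (by norm_num) h5 2
      nlinarith [sq_nonneg M]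
    have g6 : 2560000 / M ^ 3 ≤ 1 / (4 * M ^ 2) := by
      rw [div_le_div_iff₀ (by positivity) (by positivity)]
      nlinarith [sq_nonneg M]
    have g7 : 1 / M ^ 2 ≤ 1 / ((n : ℝ) + 2) ^ 2 := by
      apply one_div_le_one_div_of_le (by positivity)
      exact pow_le_pow_left₀ (by positivity) h5' 2
    have g8 : 1 / (4 * M ^ 2) = 1 / 4 * (1 / M ^ 2) := by
      field_simp
    rw [g8] at g5 g6
    linarith
  · -- t5
    intro lam hlam0 hlam
    have hq1 : (1 / 20) / lam < 1 := by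
      rw [div_lt_one (by linarith)]; exact hlam0
    obtain ⟨N, hN⟩ := ev (3 + EX) (1354752000 * 2 ^ EX) (max (1 / 2) ((1 / 20) / lam))
      (by positivity) (le_trans (by norm_num) (le_max_left _ _)) (max_lt (by norm_num) hq1)
    refine ⟨N, fun n hn => ?_⟩
    have h1 := hN (n + n0) (by omega)
    have h2 := hl2 n
    have h5 := hMb n
    have h5' := hMn n
    have h6 := hoo n
    have h7 := hTT n
    have h8 := KK_pow (M := n + n0) (by have := hM200 n; omega) (b := 21) (by norm_num)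
      (by norm_num)
    have h9 := hS.2 (1 / 20) lam (by norm_num) hlam0.le (n + n0) (by have := hM200 n; omega)
      (by nlinarith)
    obtain ⟨-, -, -, -, -, -, p7, -⟩ := hP (1 / 20) (by norm_num) (by norm_num) (l n) (hl1 n)
    have p8 := p7 lam hlam0.le hlam
    obtain ⟨-, -, -, -, a5, a6, -⟩ := hS.1 lam (by linarith) (n + n0)
      (by have := hM200 n; omega)
    have hsec := second hS hlam0.le (M := n + n0 + 1) (by have := hM200 n; omega)
    have hq2 : (1 / 2 : ℝ) ^ ((n + n0) / 4) ≤ (max (1 / 2) ((1 / 20) / lam)) ^ ((n + n0) / 4) :=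
      pow_le_pow_left₀ (by norm_num) (le_max_left _ _) _
    have hq3 : ((1 / 20) / lam : ℝ) ^ ((n + n0) / 4)
        ≤ (max (1 / 2) ((1 / 20) / lam)) ^ ((n + n0) / 4) := by
      have : 0 < lam := by linarith
      apply pow_le_pow_left₀ (by positivity) (le_max_right _ _)
    have hq0 : 0 < (max (1 / 2) ((1 / 20) / lam)) ^ ((n + n0) / 4) := by
      have : (0 : ℝ) < max (1 / 2) ((1 / 20) / lam) := lt_of_lt_of_le (by norm_num) (le_max_left _ _)
      positivity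
    show 2 * (20 * ((n + 1 + n0 : ℕ) : ℝ) * (24 * 21 ^ (KK (n + n0) + 2)) /
        (lam ^ 2 * oo (l n) lam * TT lam (n + 1 + n0)) +
      ((n + 1 + n0 : ℕ) : ℝ) * del lam (n + 1 + n0) 5 / TT lam (n + 1 + n0))
        ≤ 1 / ((n : ℝ) + 2) ^ 2
    rw [hmm n]
    have hc : ((n + n0 + 1 : ℕ) : ℝ) = ((n + n0 : ℕ) : ℝ) + 1 := by push_cast; ring
    rw [hc] at hsec ⊢
    have hv : (1 : ℝ) ≤ 11 ^ KK (n + n0) := one_le_pow₀ (by norm_num)
    have g1 : TT (1 / 20) (n + n0) ≤ 2 * (max (1 / 2) ((1 / 20) / lam)) ^ ((n + n0) / 4) *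
        TT lam (n + n0) := by
      refine h9.trans ?_
      apply mul_le_mul_of_nonneg_right _ (by linarith)
      linarith
    rw [pow_add]
    generalize ((n + n0 : ℕ) : ℝ) = M at *
    generalize TT (1 / 20) (n + n0) = T at *
    generalize oo (l n) (1 / 20) = o at *
    generalize (11 : ℝ) ^ KK (n + n0) = v at *
    have hz0 : (0 : ℝ) < 21 ^ KK (n + n0) := by positivity
    generalize (21 : ℝ) ^ KK (n + n0) = z at *
    generalize (max (1 / 2) ((1 / 20) / lam)) ^ ((n + n0) / 4) = Q at *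
    generalize (M + 1) * del lam (n + n0 + 1) 5 / TT lam (n + n0 + 1) = W at *
    generalize TT lam (n + n0 + 1) = T' at *
    generalize TT lam (n + n0) = T'' at *
    generalize oo (l n) lam = o' at *
    have hM0 : 0 < M := by linarith
    have hT' : 0 < T' := by linarith
    have ho' : 0 < o' := by linarith
    have g2 : M ^ 5 * v ≤ 2 * Q * (o' * T') := by
      refine h2.trans ?_
      have e1 : T * o ≤ (2 * Q * T') * o' := by
        apply mul_le_mul _ p8 h6.le (by positivity)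
        exact g1.trans (mul_le_mul_of_nonneg_left a6 (by positivity))
      linarith
    have g2' : 1 ≤ 2 * Q * (o' * T') := by
      refine le_trans ?_ g2
      have : (1 : ℝ) ≤ M ^ 5 := one_le_pow₀ (by linarith)
      nlinarith
    have g3 : (1 / 400 : ℝ) ≤ lam ^ 2 := by nlinarith
    have g4 : 1354752000 * (M ^ 3 * z) * Q ≤ 1 := by
      refine le_trans ?_ h1
      have e1 : 1354752000 * (M ^ 3 * z) * Q ≤ 1354752000 * (M ^ 3 * (2 * M) ^ EX) * Q := by
        gcongr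
      refine e1.trans (le_of_eq ?_)
      rw [mul_pow, pow_add]
      generalize (2 : ℝ) ^ EX = u'
      generalize M ^ EX = v'
      ring
    have g5 : 20 * (M + 1) * (24 * (z * 21 ^ 2)) / (lam ^ 2 * o' * T') ≤ 1 / (4 * M ^ 2) := by
      rw [div_le_div_iff₀ (by positivity) (by positivity)]
      have e1 : 1 / 400 * (o' * T') ≤ lam ^ 2 * (o' * T') :=
        mul_le_mul_of_nonneg_right g3 (by positivity)
      have e2 : 1354752000 * (M ^ 3 * z) ≤ 2 * (o' * T') := by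
        have e3 : 1354752000 * (M ^ 3 * z) * (2 * Q * (o' * T')) ≤ 1 * (2 * (o' * T')) := by
          calc 1354752000 * (M ^ 3 * z) * (2 * Q * (o' * T'))
              = (1354752000 * (M ^ 3 * z) * Q) * (2 * (o' * T')) := by ring
            _ ≤ 1 * (2 * (o' * T')) := mul_le_mul_of_nonneg_right g4 (by positivity)
        have e4 : 1354752000 * (M ^ 3 * z) * 1 ≤ 1354752000 * (M ^ 3 * z) * (2 * Q * (o' * T')) :=
          mul_le_mul_of_nonneg_left g2' (by positivity)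
        linarith
      have e5 : (M + 1) * M ^ 2 ≤ 2 * M ^ 3 := by nlinarith [sq_nonneg M]
      have e6 : 20 * (M + 1) * (24 * (z * 21 ^ 2)) * (4 * M ^ 2)
          = 846720 * z * ((M + 1) * M ^ 2) := by ring
      rw [e6]
      have e7 : 846720 * z * ((M + 1) * M ^ 2) ≤ 846720 * z * (2 * M ^ 3) :=
        mul_le_mul_of_nonneg_left e5 (by positivity)
      linarith
    have g6 : 2560000 / (M + 1) ^ 3 ≤ 1 / (4 * M ^ 2) := by
      rw [div_le_div_iff₀ (by positivity) (by positivity)]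
      nlinarith [sq_nonneg M]
    have g7 : 1 / M ^ 2 ≤ 1 / ((n : ℝ) + 2) ^ 2 := by
      apply one_div_le_one_div_of_le (by positivity)
      exact pow_le_pow_left₀ (by positivity) h5' 2
    have g8 : 1 / (4 * M ^ 2) = 1 / 4 * (1 / M ^ 2) := by
      field_simp
    rw [g8] at g5 g6
    linarith

end Pool.Agent.W148.CP
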